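import Pool.Agent.Lib.H51L.E5

/-!
# Local versus global conformal removability: reduction to the components

Let the compact plane set `E` be a countable union of compact sets `A n` (for instance all equal to `E`), such that for each
`n` all but countably many of the non-degenerate components of `A n` contain a flat arc (an affine image of the graph over
`[0, 1]` of a function with Lipschitz constant `1/20`).  If the local and the global notion of conformal removability agree
for all components of the sets `A n`, they agree for `E`.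

In particular they agree for `E` if every component of every `A n` is a point, or contains a regular curve and is covered
by countably many regular curves.
-/

set_option autoImplicit false

namespace Pool.Agent.Results.MP_699e20_an.Components

open Set

/-- `E` is conformally removable: every self-homeomorphism of the plane which is holomorphic off `E` is entire. -/
def Removable (E : Set ℂ) : Prop :=
  ∀ f : ℂ ≃ₜ ℂ, DifferentiableOn ℂ f Eᶜ → Differentiable ℂ f

/-- `E` is locally conformally removable: for every open `U`, every continuous injective map on `U` which is holomorphic on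
`U \ E` is holomorphic on `U`. -/
def LocallyRemovable (E : Set ℂ) : Prop :=
  ∀ U : Set ℂ, IsOpen U → ∀ f : ℂ → ℂ, ContinuousOn f U → InjOn f U →
    DifferentiableOn ℂ f (U \ E) → DifferentiableOn ℂ f U

/-- `F` contains a flat arc: the image under a map `z ↦ α z + β`, `α ≠ 0`, of the graph `{u y + i y | 0 ≤ y ≤ 1}` of a real
function `u` with Lipschitz constant `1/20`. -/
def ContainsFlatArc (F : Set ℂ) : Prop :=
  ∃ (α β : ℂ) (u : ℝ → ℝ), α ≠ 0 ∧
    (∀ y ∈ Icc (0 : ℝ) 1, ∀ y' ∈ Icc (0 : ℝ) 1, |u y - u y'| ≤ 1 / 20 * |y - y'|) ∧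
    ∀ y ∈ Icc (0 : ℝ) 1, α * ((u y : ℂ) + y * Complex.I) + β ∈ F

/-- A regular curve: the image of `[0, 1]` under a continuously differentiable map with non-vanishing derivative. -/
def RegularCurve (C : Set ℂ) : Prop :=
  ∃ γ γ' : ℝ → ℂ, (∀ t ∈ Icc (0 : ℝ) 1, HasDerivWithinAt γ (γ' t) (Icc 0 1) t) ∧
    ContinuousOn γ' (Icc 0 1) ∧ (∀ t ∈ Icc (0 : ℝ) 1, γ' t ≠ 0) ∧ C = γ '' Icc 0 1

theorem result :
    (∀ E : Set ℂ, IsCompact E → ∀ A : ℕ → Set ℂ, (∀ n, IsCompact (A n)) → E = ⋃ n, A n →
      (∀ n, {C | ∃ z ∈ A n, C = connectedComponentIn (A n) z ∧ C.Nontrivial ∧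
        ¬ContainsFlatArc C}.Countable) →
      (∀ n, ∀ z ∈ A n, (Removable (connectedComponentIn (A n) z) ↔
        LocallyRemovable (connectedComponentIn (A n) z))) →
      (Removable E ↔ LocallyRemovable E)) ∧
    (∀ E : Set ℂ, IsCompact E → ∀ A : ℕ → Set ℂ, (∀ n, IsCompact (A n)) → E = ⋃ n, A n →
      (∀ n, ∀ z ∈ A n, connectedComponentIn (A n) z = {z} ∨
        (∃ R, RegularCurve R ∧ R ⊆ connectedComponentIn (A n) z) ∧
          ∃ R : ℕ → Set ℂ, (∀ k, RegularCurve (R k)) ∧
            connectedComponentIn (A n) z ⊆ ⋃ k, R k) →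
      (Removable E ↔ LocallyRemovable E)) := by
  refine ⟨fun E hE A hA hU hc hl => ?_, fun E hE A hA hU hl => ?_⟩
  · exact H51L.e5_main hE hA hU hl hc
  · exact H51L.e4_main hE hA hU hl

end Pool.Agent.Results.MP_699e20_an.Components
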