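import Pool.Agent.Lib.H51L.E4

/-!
# Compact sets with uncountably many disjoint flat arcs are not conformally removable

A compact plane set which contains uncountably many pairwise disjoint flat arcs (affine images of graphs over `[0, 1]` of
functions with Lipschitz constant `1/20`) is not conformally removable, hence not locally removable either.
-/

set_option autoImplicit false

namespace Pool.Agent.Results.MP_699e20_an.FlatArcs

open Set

/-- `E` is conformally removable: every self-homeomorphism of the plane which is holomorphic off `E` is entire. -/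
def Removable (E : Set ℂ) : Prop :=
  ∀ f : ℂ ≃ₜ ℂ, DifferentiableOn ℂ f Eᶜ → Differentiable ℂ f

/-- `E` is locally conformally removable: for every open `U`, every continuous injective map on `U` which is holomorphic on
`U \ E` is holomorphic on `U`. -/
def LocallyRemovable (E : Set ℂ) : Prop :=
  ∀ U : Set ℂ, IsOpen U → ∀ f : ℂ → ℂ, ContinuousOn f U → InjOn f U →
    DifferentiableOn ℂ f (U \ E) → DifferentiableOn ℂ f U

/-- `F` contains a flat arc: the image under a map `z ↦ α z + β`, `α ≠ 0`, of the graph `{u y + i y | 0 ≤ y ≤ 1}` of a real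
function `u` with Lipschitz constant `1/20`. -/
def ContainsFlatArc (F : Set ℂ) : Prop :=
  ∃ (α β : ℂ) (u : ℝ → ℝ), α ≠ 0 ∧
    (∀ y ∈ Icc (0 : ℝ) 1, ∀ y' ∈ Icc (0 : ℝ) 1, |u y - u y'| ≤ 1 / 20 * |y - y'|) ∧
    ∀ y ∈ Icc (0 : ℝ) 1, α * ((u y : ℂ) + y * Complex.I) + β ∈ F

theorem result (E : Set ℂ) (hE : IsCompact E) (𝓕 : Set (Set ℂ)) (hc : ¬𝓕.Countable)
    (hd : 𝓕.PairwiseDisjoint id) (hf : ∀ F ∈ 𝓕, F ⊆ E ∧ ContainsFlatArc F) :
    ¬Removable E ∧ ¬LocallyRemovable E := by
  have h : ¬H51R.Removable E := H51L.d2_not hE hc hd fun F hF => ⟨(hf F hF).2, (hf F hF).1⟩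
  exact ⟨h, fun hl => h (H51R.e1_loc hl)⟩

end Pool.Agent.Results.MP_699e20_an.FlatArcs
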