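import Pool.Agent.Lib.H51R.G4

/-!
# Limit sets of groups generated by reflections in circles

Let `C₁, ..., Cₙ` be circles bounding closed discs with pairwise disjoint interiors (tangent circles are allowed).  The limit set
of the group generated by the reflections in these circles is conformally removable if and only if it is locally conformally
removable.
-/

set_option autoImplicit false

namespace Pool.Agent.Results.MP_699e20_an.ReflectionGroups

open Set Metric Topology
open scoped ComplexConjugate

/-- `E` is conformally removable: every self-homeomorphism of the plane which is holomorphic off `E` is entire. -/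
def Removable (E : Set ℂ) : Prop :=
  ∀ f : ℂ ≃ₜ ℂ, DifferentiableOn ℂ f Eᶜ → Differentiable ℂ f

/-- `E` is locally conformally removable: for every open `U`, every continuous injective map on `U` which is holomorphic on
`U \ E` is holomorphic on `U`. -/
def LocallyRemovable (E : Set ℂ) : Prop :=
  ∀ U : Set ℂ, IsOpen U → ∀ f : ℂ → ℂ, ContinuousOn f U → InjOn f U →
    DifferentiableOn ℂ f (U \ E) → DifferentiableOn ℂ f U

/-- The reflection in the circle with centre `c` and radius `r` (used only for points different from `c`). -/
noncomputable def reflection (c : ℂ) (r : ℝ) (z : ℂ) : ℂ := c + (r : ℂ) ^ 2 / conj (z - c)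

/-- The limit set: the points with an infinite itinerary.  `x 0 = z`, the point `x k` lies in the closed disc number `i k` and is not
its centre, `x (k + 1)` is the mirror image of `x k` in the circle number `i k`, and `i (k + 1) ≠ i k`. -/
def LimitSet {n : ℕ} (c : Fin n → ℂ) (r : Fin n → ℝ) : Set ℂ :=
  {z | ∃ (i : ℕ → Fin n) (x : ℕ → ℂ), x 0 = z ∧ ∀ k, i (k + 1) ≠ i k ∧
    x k ∈ closedBall (c (i k)) (r (i k)) ∧ x k ≠ c (i k) ∧
    x (k + 1) = reflection (c (i k)) (r (i k)) (x k)}

theorem result (n : ℕ) (c : Fin n → ℂ) (r : Fin n → ℝ) (hr : ∀ i, 0 < r i)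
    (hd : ∀ i j, i ≠ j → r i + r j ≤ dist (c i) (c j)) :
    IsCompact (LimitSet c r) ∧ (Removable (LimitSet c r) ↔ LocallyRemovable (LimitSet c r)) :=
  ⟨H51R.g1_compact hr hd, H51R.g4_limset hr hd, H51R.e1_loc⟩

end Pool.Agent.Results.MP_699e20_an.ReflectionGroups
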