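import Pool.Agent.Lib.H51R.F4

/-!
# Local conformal removability is stability under unions with removable sets

For a compact subset `E` of the plane the following are equivalent: `E` is locally conformally removable; the union of `E`
with any conformally removable compact set is conformally removable; for every closed disc with centre off `E` the double of
`E ∩ D` (its union with its mirror image in the circle) is conformally removable.

Consequently, in every class of compact sets which is closed under compact subsets and under reflections in circles, the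
question whether every removable set is locally removable (Q1) is equivalent to the question whether the union of two removable
sets is removable, and to the question for compact countable unions.
-/

set_option autoImplicit false

namespace Pool.Agent.Results.MP_699e20_an.UnionStable

open Set Metric Topology
open scoped ComplexConjugate

/-- `E` is conformally removable: every self-homeomorphism of the plane which is holomorphic off `E` is entire. -/
def Removable (E : Set ℂ) : Prop :=
  ∀ f : ℂ ≃ₜ ℂ, DifferentiableOn ℂ f Eᶜ → Differentiable ℂ f

/-- `E` is locally conformally removable: for every open `U`, every continuous injective map on `U` which is holomorphic on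
`U \ E` is holomorphic on `U`. -/
def LocallyRemovable (E : Set ℂ) : Prop :=
  ∀ U : Set ℂ, IsOpen U → ∀ f : ℂ → ℂ, ContinuousOn f U → InjOn f U →
    DifferentiableOn ℂ f (U \ E) → DifferentiableOn ℂ f U

/-- The reflection in the circle with centre `c` and radius `r` (used only for points different from `c`). -/
noncomputable def reflection (c : ℂ) (r : ℝ) (z : ℂ) : ℂ := c + (r : ℂ) ^ 2 / conj (z - c)

/-- The double of the part of `E` in the closed disc with centre `c` and radius `r`: this part together with its mirror image in
the circle. -/
def double (E : Set ℂ) (c : ℂ) (r : ℝ) : Set ℂ :=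
  E ∩ closedBall c r ∪ reflection c r '' (E ∩ closedBall c r)

theorem result :
    (∀ E : Set ℂ, IsCompact E → List.TFAE [
      LocallyRemovable E,
      ∀ B : Set ℂ, IsCompact B → Removable B → Removable (E ∪ B),
      ∀ (c : ℂ) (r : ℝ), 0 < r → c ∉ E → Removable (double E c r)]) ∧
    (∀ 𝒞 : Set (Set ℂ), (∀ E ∈ 𝒞, IsCompact E) → (∀ E ∈ 𝒞, ∀ F ⊆ E, IsCompact F → F ∈ 𝒞) →
      (∀ E ∈ 𝒞, ∀ (c : ℂ) (r : ℝ), 0 < r → c ∉ E → reflection c r '' E ∈ 𝒞) →
      List.TFAE [
        ∀ E ∈ 𝒞, (Removable E ↔ LocallyRemovable E),
        ∀ A ∈ 𝒞, ∀ B ∈ 𝒞, Removable A → Removable B → Removable (A ∪ B),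
        ∀ A : ℕ → Set ℂ, (∀ n, A n ∈ 𝒞) → (∀ n, Removable (A n)) → IsCompact (⋃ n, A n) →
          Removable (⋃ n, A n)]) := by
  refine ⟨fun E hE => H51R.f4_tfae hE, fun 𝒞 hc hm hr => ?_⟩
  have h := H51R.f3_tfae hc hm hr
  have h01 : (∀ E ∈ 𝒞, Removable E → LocallyRemovable E) ↔
      ∀ A ∈ 𝒞, ∀ B ∈ 𝒞, Removable A → Removable B → Removable (A ∪ B) := h.out 0 1
  tfae_have 1 ↔ 2 := by
    constructor
    · intro h1
      exact h01.1 fun E hE hrem => (h1 E hE).1 hrem
    · intro h1 E hE
      exact ⟨h01.2 h1 E hE, H51R.e1_loc⟩
  tfae_have 2 ↔ 3 := h.out 1 2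
  tfae_finish

end Pool.Agent.Results.MP_699e20_an.UnionStable
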